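import Pool.Agent.H77.OF.Global
import Pool.Agent.H77.OF.Zero
import Pool.Agent.H77.OF.Sum3
import Pool.Agent.H77.RT.Base

/-!
# Smooth functions computable on-line in real time are affine

The machines are the multi-stack machines of the frozen statement of the problem, with one more stack that
holds the base-`b` digits of a number `y ∈ [0, 1]` and is only popped.  The digits written on the push-only
output stack may be arbitrary integers (redundant digits).  The machine computes `f` on-line with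
lookahead `D`: it prints `n` digits, which determine `f y` up to `E / b^n`, before it has read more than
`n + D n` digits of `y`.

Theorem, local part.  Let `f` be any function on `[0, 1]` that some machine computes in time `T` with
lookahead `D`, where `T` and `D` are nondecreasing, `D n = o(n)` and `T n = o(n log (n / (D n + 1)))`.  If
`f` is differentiable near the point `y` and its derivative is Hoelder continuous at `y`, then the
derivative at `y` is a rational number or a Liouville number.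

Theorem, global part.  Let `f` have a Hoelder continuous derivative on `[0, 1]` and algebraic values at
the endpoints.  The following are equivalent.

1. `f y = α y + β` with a rational number `α` and a real-time computable number `β`.
2. Some machine computes `f` in real time with lookahead `0`.
3. Some machine computes `f` in real time with some lookahead `D n = o(n)`.
4. `f 0` is real-time computable, and some machine computes `f` in time `T` with lookahead `D`, where
   `D n = o(n)` and `T n = o(n log (n / (D n + 1)))`.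

So none of the functions `√(1 + y)`, `1 / (1 + y)`, `y²`, `√2 y` is computable on-line in real time.  The
Hartmanis-Stearns conjecture (Q1) for the base `b` is equivalent to the statement that the functions `f`
as above that are computable on-line in real time are the functions `α y + β` with rational `α` and `β`
(take constant functions for one direction).

Sketch.  Near a point `y` where the derivative `α` is an irrational number that is not a Liouville
number, the machine has to do what a multiplier by `α` does: on words with a fixed long prefix (the first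
`2^e m` digits of `y`) the differences of the values of `f` are `α` times the differences of the
arguments, up to a relative error `b^(-2 m)`.  By the overlap argument (Cook-Aanderaa,
Paterson-Fischer-Meyer) and Liouville's inequality this takes time `Ω(m log (m / D))` on some word of
length `O(m)`.  If `f'` is continuous and takes only rational and Liouville values then it is constant,
by the intermediate value theorem.
-/

namespace Pool.Agent.Results.MP_5bdb63_lc.OnlineFunctions

open Filter Asymptotics Set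

/-- The sequence `a` is generated in real time: there are a finite deterministic multi-stack machine `M`
(`K` stacks with finite alphabets `Γ`, finite label set `Λ`, finite internal memory `σ`), one of whose
stacks, `out`, never loses a symbol, a coding `enc` of its symbols, and a constant `c` such that for every
`n`, after `c * (n + 1)` steps the first (bottom) `n` symbols of `out` are `a 0, ..., a (n-1)`. -/
def RealTimeGenerated {α : Type} (a : ℕ → α) : Prop :=
  ∃ (K : Type) (_ : Fintype K) (_ : DecidableEq K) (Γ : K → Type)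
    (_ : ∀ k, Fintype (Γ k)) (Λ : Type) (_ : Fintype Λ) (σ : Type) (_ : Fintype σ)
    (M : Λ → Turing.TM2.Stmt Γ Λ σ) (l₀ : Λ) (v₀ : σ) (out : K)
    (enc : Γ out → α) (c : ℕ),
    (∀ t t' : ℕ, t ≤ t' → ∀ C C' : Turing.TM2.Cfg Γ Λ σ,
      (fun o : Option (Turing.TM2.Cfg Γ Λ σ) => o.bind (Turing.TM2.step (M := M)))^[t]
          (some ⟨some l₀, v₀, fun _ => []⟩) = some C →
      (fun o : Option (Turing.TM2.Cfg Γ Λ σ) => o.bind (Turing.TM2.step (M := M)))^[t']
          (some ⟨some l₀, v₀, fun _ => []⟩) = some C' →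
      C.stk out <:+ C'.stk out) ∧
    ∀ n : ℕ, ∃ C : Turing.TM2.Cfg Γ Λ σ,
      (fun o : Option (Turing.TM2.Cfg Γ Λ σ) => o.bind (Turing.TM2.step (M := M)))^[c * (n + 1)]
          (some ⟨some l₀, v₀, fun _ => []⟩) = some C ∧
      ∀ i < n, Option.map enc ((C.stk out).reverse[i]?) = some (a i)

/-- `x` is real-time computable in base `b`: its sequence of base-`b` digits (of the fractional part) is
generated in real time. -/
def RealTimeComputable (b : ℕ) (x : ℝ) : Prop :=
  RealTimeGenerated (fun i => Int.toNat (⌊x * (b : ℝ) ^ (i + 1)⌋ % (b : ℤ)))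

/-- A finite deterministic multi-stack machine (Mathlib's TM2) with an input stack `inp`, whose symbols
encode base-`b` digits through `rd`, and an output stack `out`, whose symbols stand for integers
through `wr`. -/
structure Machine (b : ℕ) where
  K : Type
  [fK : Fintype K]
  [dK : DecidableEq K]
  Γ : K → Type
  [fΓ : ∀ k, Fintype (Γ k)]
  Λ : Type
  [fΛ : Fintype Λ]
  σ : Type
  [fσ : Fintype σ]
  prog : Λ → Turing.TM2.Stmt Γ Λ σ
  l₀ : Λ
  v₀ : σ
  inp : K
  out : K
  ne : inp ≠ out
  rd : Fin b → Γ inp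
  wr : Γ out → ℤ

attribute [instance] Machine.fK Machine.dK Machine.fΓ Machine.fΛ Machine.fσ

variable {b : ℕ}

/-- The configuration after `t` steps on the input word `w` (its first digit is on top of the stack `inp`,
all other stacks are empty at the beginning); `none` if the machine has halted before. -/
def Machine.config (M : Machine b) (w : List (Fin b)) (t : ℕ) :
    Option (Turing.TM2.Cfg M.Γ M.Λ M.σ) :=
  (fun o : Option (Turing.TM2.Cfg M.Γ M.Λ M.σ) => o.bind (Turing.TM2.step (M := M.prog)))^[t]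
    (some ⟨some M.l₀, M.v₀, Function.update (fun _ => []) M.inp (w.map M.rd)⟩)

/-- The number `0.l₀l₁l₂...` in base `b` with the integer digits `l`. -/
noncomputable def value (b : ℕ) (l : List ℤ) : ℝ :=
  ∑ i ∈ Finset.range l.length, (l.getD i 0 : ℝ) / (b : ℝ) ^ (i + 1)

/-- The machine computes `f` on the word `w` on-line, in time `T` with lookahead `D` and error constant
`E`: the input stack is only popped, the output stack is only pushed, and for all `n` with
`n + D n ≤ |w|` there is a time `t ≤ T n` at which at most `n + D n` digits have been read, at least `n`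
digits have been written and the first `n` of them determine the value of `f` at the number with the
digits `w` up to `E / b^n`. -/
structure Machine.Computes (M : Machine b) (f : ℝ → ℝ) (E : ℝ) (T D : ℕ → ℕ) (w : List (Fin b)) :
    Prop where
  reads : ∀ t t' : ℕ, t ≤ t' → ∀ C C' : Turing.TM2.Cfg M.Γ M.Λ M.σ,
    M.config w t = some C → M.config w t' = some C' → C'.stk M.inp <:+ C.stk M.inp
  writes : ∀ t t' : ℕ, t ≤ t' → ∀ C C' : Turing.TM2.Cfg M.Γ M.Λ M.σ,
    M.config w t = some C → M.config w t' = some C' → C.stk M.out <:+ C'.stk M.out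
  works : ∀ n, n + D n ≤ w.length → ∃ t ≤ T n, ∃ C : Turing.TM2.Cfg M.Γ M.Λ M.σ,
    M.config w t = some C ∧
    w.length ≤ (C.stk M.inp).length + (n + D n) ∧ n ≤ (C.stk M.out).length ∧
    |f (value b (w.map fun a : Fin b => ((a : ℕ) : ℤ))) -
      value b (((C.stk M.out).reverse.take n).map M.wr)| ≤ E / (b : ℝ) ^ n

theorem raw {M : Machine b} {f : ℝ → ℝ} {E : ℝ} {T D : ℕ → ℕ} {w : List (Fin b)}
    (h : M.Computes f E T D w) :
    Pool.Agent.H77.OF.RawComp M.prog M.l₀ M.v₀ M.inp M.out M.rd M.wr f E T D w :=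
  ⟨h.reads, h.writes, h.works⟩

/-- The derivative of a function computed fast on-line is rational or Liouville. -/
theorem local_part (hb : 2 ≤ b) (f f' : ℝ → ℝ) (M : Machine b) (E : ℝ) (T D : ℕ → ℕ)
    (hTm : Monotone T) (hDm : Monotone D)
    (hD : (fun n => (D n : ℝ)) =o[atTop] (fun n => (n : ℝ)))
    (hT : (fun n => (T n : ℝ)) =o[atTop] (fun n => (n : ℝ) * Real.log ((n : ℝ) / ((D n : ℝ) + 1))))
    (hM : ∀ w, M.Computes f E T D w) (y δ : ℝ) (h0 : 0 ≤ y) (h1 : y < 1) (hδ : 0 < δ)
    (hf : ∀ x ∈ Icc (0 : ℝ) 1, |x - y| ≤ δ → HasDerivWithinAt f (f' x) (Icc 0 1) x)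
    (hH : ∃ C r : ℝ, 0 < r ∧ ∀ x ∈ Icc (0 : ℝ) 1, |x - y| ≤ δ → |f' x - f' y| ≤ C * |x - y| ^ r)
    (hirr : Irrational (f' y)) : Liouville (f' y) := by
  classical
  by_contra hL
  obtain ⟨C, r, hr, hH⟩ := hH
  exact Pool.Agent.H77.OF.local_lb hb hL hirr M.prog M.l₀ M.v₀ M.ne.symm M.rd M.wr E hTm hDm hD hT
    h0 h1 hr hδ (Pool.Agent.H77.OF.close_of_deriv hr hf hH) (fun w => raw (hM w))

theorem rt_small {c : ℕ} {D : ℕ → ℕ} (hD : (fun n => (D n : ℝ)) =o[atTop] (fun n => (n : ℝ))) :
    (fun n : ℕ => ((c * (n + 1) : ℕ) : ℝ)) =o[atTop]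
      (fun n => (n : ℝ) * Real.log ((n : ℝ) / ((D n : ℝ) + 1))) := by
  have h1 : (fun n : ℕ => ((c * (n + 1) : ℕ) : ℝ)) =O[atTop] fun n : ℕ => (n : ℝ) := by
    apply IsBigO.of_bound (2 * c)
    filter_upwards [eventually_ge_atTop 1] with n hn
    rw [Real.norm_of_nonneg (by positivity), Real.norm_of_nonneg (by positivity)]
    have : (1 : ℝ) ≤ n := by exact_mod_cast hn
    have hc : (0 : ℝ) ≤ c := by positivity
    push_cast; nlinarith
  have h2 : (fun _ : ℕ => (1 : ℝ)) =o[atTop]
      fun n : ℕ => Real.log ((n : ℝ) / ((D n : ℝ) + 1)) := by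
    rw [isLittleO_const_left]
    right
    exact tendsto_norm_atTop_atTop.comp
      (Real.tendsto_log_atTop.comp (Pool.Agent.H77.OL.tendsto_ratio hD))
  have h3 := h1.mul_isLittleO h2
  simpa only [mul_one] using h3

theorem rt_mono (c : ℕ) : Monotone fun n : ℕ => c * (n + 1) :=
  fun _ _ h => Nat.mul_le_mul_left _ (Nat.succ_le_succ h)

/-- **Main theorem.** -/
theorem result (b : ℕ) (hb : 2 ≤ b) :
    (∀ (f f' : ℝ → ℝ) (M : Machine b) (E : ℝ) (T D : ℕ → ℕ), Monotone T → Monotone D →
      (fun n => (D n : ℝ)) =o[atTop] (fun n => (n : ℝ)) →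
      (fun n => (T n : ℝ)) =o[atTop] (fun n => (n : ℝ) * Real.log ((n : ℝ) / ((D n : ℝ) + 1))) →
      (∀ w, M.Computes f E T D w) →
      ∀ y δ : ℝ, 0 ≤ y → y < 1 → 0 < δ →
        (∀ x ∈ Icc (0 : ℝ) 1, |x - y| ≤ δ → HasDerivWithinAt f (f' x) (Icc 0 1) x) →
        (∃ C r : ℝ, 0 < r ∧ ∀ x ∈ Icc (0 : ℝ) 1, |x - y| ≤ δ → |f' x - f' y| ≤ C * |x - y| ^ r) →
        Irrational (f' y) → Liouville (f' y)) ∧
    (∀ f f' : ℝ → ℝ, (∀ x ∈ Icc (0 : ℝ) 1, HasDerivWithinAt f (f' x) (Icc 0 1) x) →
      (∃ C r : ℝ, 0 < r ∧ ∀ x ∈ Icc (0 : ℝ) 1, ∀ y ∈ Icc (0 : ℝ) 1, |f' x - f' y| ≤ C * |x - y| ^ r) →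
      IsAlgebraic ℚ (f 0) → IsAlgebraic ℚ (f 1) →
      List.TFAE [
        ∃ (α : ℚ) (β : ℝ), RealTimeComputable b β ∧ ∀ y ∈ Icc (0 : ℝ) 1, f y = α * y + β,
        ∃ (M : Machine b) (E : ℝ) (c : ℕ), ∀ w, M.Computes f E (fun n => c * (n + 1)) (fun _ => 0) w,
        ∃ (M : Machine b) (E : ℝ) (c : ℕ) (D : ℕ → ℕ), Monotone D ∧
          (fun n => (D n : ℝ)) =o[atTop] (fun n => (n : ℝ)) ∧
          ∀ w, M.Computes f E (fun n => c * (n + 1)) D w,
        RealTimeComputable b (f 0) ∧
          ∃ (M : Machine b) (E : ℝ) (T D : ℕ → ℕ), Monotone T ∧ Monotone D ∧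
            (fun n => (D n : ℝ)) =o[atTop] (fun n => (n : ℝ)) ∧
            (fun n => (T n : ℝ)) =o[atTop]
              (fun n => (n : ℝ) * Real.log ((n : ℝ) / ((D n : ℝ) + 1))) ∧
            ∀ w, M.Computes f E T D w]) := by
  classical
  refine ⟨fun f f' M E T D hTm hDm hD hT hM y δ h0 h1 hδ hf hH hirr =>
    local_part hb f f' M E T D hTm hDm hD hT hM y δ h0 h1 hδ hf hH hirr, ?_⟩
  intro f f' hf hH halg0 halg1
  obtain ⟨C, r, hr, hH⟩ := hH
  -- the affine form
  have aff : ∀ (M : Machine b) (E : ℝ) (T D : ℕ → ℕ), Monotone T → Monotone D →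
      (fun n => (D n : ℝ)) =o[atTop] (fun n => (n : ℝ)) →
      (fun n => (T n : ℝ)) =o[atTop] (fun n => (n : ℝ) * Real.log ((n : ℝ) / ((D n : ℝ) + 1))) →
      (∀ w, M.Computes f E T D w) →
      ∃ α : ℚ, ∀ y ∈ Icc (0 : ℝ) 1, f y = α * y + f 0 := by
    intro M E T D hTm hDm hD hT hM
    have hval : ∀ y, 0 ≤ y → y < 1 → Irrational (f' y) → Liouville (f' y) := by
      intro y h0 h1 hirr
      exact local_part hb f f' M E T D hTm hDm hD hT hM y 1 h0 h1 one_pos
        (fun x hx _ => hf x hx) ⟨C, r, hr, fun x hx _ => hH x hx y ⟨h0, h1.le⟩⟩ hirr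
    have h1 := Pool.Agent.H77.OF.affine_of_values hr hf hH hval
    have h2 : f' 0 = f 1 - f 0 := by
      have := h1 1 ⟨zero_le_one, le_rfl⟩
      linarith
    have h3 : ¬ Irrational (f' 0) := by
      intro hirr
      refine Pool.Agent.H77.OF.not_liouville_of_algebraic ?_ (hval 0 le_rfl zero_lt_one hirr)
      rw [h2]
      exact halg1.sub halg0
    unfold Irrational at h3
    push Not at h3
    obtain ⟨α, hα⟩ := h3
    refine ⟨α, fun y hy => ?_⟩
    rw [hα]
    exact h1 y hy
  tfae_have 1 → 2 := by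
    rintro ⟨α, β, hβ, hfy⟩
    have hgen : Pool.Agent.H77.RT.Gen (Pool.Agent.H77.RT.dig b β) :=
      Pool.Agent.H77.RT.RealTimeGenerated.gen hβ
    obtain ⟨K, i1, i2, Γ, i3, Λ, i4, σ, i5, P, l₀, v₀, inp, out, ne, rd, wr, E, c, h⟩ :=
      Pool.Agent.H77.OF.exists_sum hb α.den_pos α.num β hgen
    refine ⟨{ K := K, Γ := Γ, Λ := Λ, σ := σ, prog := P, l₀ := l₀, v₀ := v₀, inp := inp, out := out,
              ne := ne, rd := rd, wr := wr }, E, c, fun w => ?_⟩
    have hval : f (value b (w.map fun a : Fin b => ((a : ℕ) : ℤ))) =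
        (α.num : ℝ) / α.den * value b (w.map fun a : Fin b => ((a : ℕ) : ℤ)) + β := by
      have h1 := Pool.Agent.H77.OF.val_mem (N := w.length) hb (fun i => w[i])
      rw [← Pool.Agent.H77.OF.vl_word (by omega) (fun i : Fin w.length => w[i])] at h1
      rw [show List.ofFn (fun i : Fin w.length => w[i]) = w from List.ofFn_getElem] at h1
      have h1' : value b (w.map fun a : Fin b => ((a : ℕ) : ℤ)) ∈ Icc (0 : ℝ) 1 := h1
      rw [hfy _ h1']
      congr 2
      exact Rat.cast_def α
    refine ⟨(h w).reads, (h w).writes, fun n hn => ?_⟩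
    obtain ⟨t, ht, C', a1, a2, a3, a4⟩ := (h w).works n hn
    refine ⟨t, ht, C', a1, a2, a3, ?_⟩
    rw [hval]
    exact a4
  tfae_have 2 → 3 := by
    rintro ⟨M, E, c, h⟩
    exact ⟨M, E, c, fun _ => 0, fun _ _ _ => le_rfl, by simp, h⟩
  tfae_have 3 → 1 := by
    rintro ⟨M, E, c, D, hDm, hD, h⟩
    obtain ⟨α, hα⟩ := aff M E _ D (rt_mono c) hDm hD (rt_small hD) h
    refine ⟨α, f 0, ?_, hα⟩
    have h1 := Pool.Agent.H77.OF.sd_zero hb M.prog M.l₀ M.v₀ M.ne.symm M.rd M.wr f E c D
      (fun w => raw (h w))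
    exact Pool.Agent.H77.RT.realTime_of_gen hb (Pool.Agent.H77.RT.gen_of_sd hb h1 halg0)
  tfae_have 3 → 4 := by
    rintro ⟨M, E, c, D, hDm, hD, h⟩
    have h1 := Pool.Agent.H77.OF.sd_zero hb M.prog M.l₀ M.v₀ M.ne.symm M.rd M.wr f E c D
      (fun w => raw (h w))
    exact ⟨Pool.Agent.H77.RT.realTime_of_gen hb (Pool.Agent.H77.RT.gen_of_sd hb h1 halg0),
      M, E, _, D, rt_mono c, hDm, hD, rt_small hD, h⟩
  tfae_have 4 → 1 := by
    rintro ⟨h0, M, E, T, D, hTm, hDm, hD, hT, h⟩
    obtain ⟨α, hα⟩ := aff M E T D hTm hDm hD hT h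
    exact ⟨α, f 0, h0, hα⟩
  tfae_finish

/-- Corollary: the Hartmanis-Stearns conjecture (Q1) for the base `b` as a statement about functions. -/
theorem conjecture_iff (b : ℕ) (hb : 2 ≤ b) :
    (∀ x : ℝ, RealTimeComputable b x → (∃ q : ℚ, (q : ℝ) = x) ∨ Transcendental ℚ x) ↔
    (∀ f f' : ℝ → ℝ, (∀ x ∈ Icc (0 : ℝ) 1, HasDerivWithinAt f (f' x) (Icc 0 1) x) →
      (∃ C r : ℝ, 0 < r ∧ ∀ x ∈ Icc (0 : ℝ) 1, ∀ y ∈ Icc (0 : ℝ) 1, |f' x - f' y| ≤ C * |x - y| ^ r) →
      IsAlgebraic ℚ (f 0) → IsAlgebraic ℚ (f 1) →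
      (∃ (M : Machine b) (E : ℝ) (c : ℕ), ∀ w, M.Computes f E (fun n => c * (n + 1)) (fun _ => 0) w) →
      ∃ α β : ℚ, ∀ y ∈ Icc (0 : ℝ) 1, f y = α * y + β) := by
  constructor
  · intro hQ f f' hf hH h0 h1 hM
    obtain ⟨α, β, hβ, hfy⟩ := (((result b hb).2 f f' hf hH h0 h1).out 1 0).1 hM
    have h2 : f 0 = β := by
      have := hfy 0 ⟨le_rfl, zero_le_one⟩
      simpa using this
    rcases hQ β hβ with ⟨q, rfl⟩ | h3
    · exact ⟨α, q, hfy⟩
    · exact absurd (h2 ▸ h0) h3
  · intro hF x hx
    by_cases hx' : IsAlgebraic ℚ x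
    · left
      have hd : ∀ y ∈ Icc (0 : ℝ) 1, HasDerivWithinAt (fun _ : ℝ => x) ((fun _ : ℝ => (0 : ℝ)) y)
          (Icc 0 1) y := fun y _ => hasDerivWithinAt_const _ _ _
      have hH : ∃ C r : ℝ, 0 < r ∧ ∀ z ∈ Icc (0 : ℝ) 1, ∀ y ∈ Icc (0 : ℝ) 1,
          |(fun _ : ℝ => (0 : ℝ)) z - (fun _ : ℝ => (0 : ℝ)) y| ≤ C * |z - y| ^ r :=
        ⟨0, 1, one_pos, fun z _ y _ => by simp⟩
      have h1 : ∃ (α : ℚ) (β : ℝ), RealTimeComputable b β ∧
          ∀ y ∈ Icc (0 : ℝ) 1, (fun _ : ℝ => x) y = α * y + β := ⟨0, x, hx, fun y _ => by simp⟩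
      obtain ⟨α, β, h⟩ := hF _ _ hd hH hx' hx'
        ((((result b hb).2 _ _ hd hH hx' hx').out 0 1).1 h1)
      refine ⟨β, ?_⟩
      have := h 0 ⟨le_rfl, zero_le_one⟩
      simp only [mul_zero, zero_add] at this
      exact this.symm
    · right; exact hx'

end Pool.Agent.Results.MP_5bdb63_lc.OnlineFunctions
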