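import Pool.Agent.H77.OL.Asym
import Pool.Agent.H77.OL.Pos

/-!
# On-line multiplication by an algebraic irrational number takes time `Ω(n log (n / D))`

The machines are the multi-stack machines of the frozen statement of the problem, with one more stack that
holds the base-`b` digits of a number `y ∈ [0, 1]` and is only popped.  The digits written on the push-only
output stack may be arbitrary integers (redundant digits).  The machine works on-line with lookahead `D`:
it prints `n` digits, which determine `α y` up to `E / b^n`, before it has read more than `n + D n` digits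
of `y`.

Theorem.  Let `α` be a real algebraic number, or more generally a real number that is not a Liouville
number.  The following are equivalent.

1. `α` is rational.
2. Some machine multiplies by `α` in real time, with lookahead `0`.
3. Some machine multiplies by `α` in time `T` with lookahead `D`, where `T` and `D` are nondecreasing,
   `D n = o(n)` and `T n = o(n log (n / (D n + 1)))`, on at least `b^(N - N^(1-κ))` words of length `N`,
   for some `κ` in `(0,1)` and infinitely many `N`.

So for an algebraic irrational `α` multiplication by `α` with lookahead `D` takes time `Ω(n log (n / D))`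
(`Ω(n log n)` if `D = O(n^(1-δ))`), on all but a tiny part of the words; in particular it is not possible
in real time with any lookahead `o(n)`.

The Hartmanis-Stearns conjecture (Q1) says that the real-time computable algebraic numbers are rational.
The implication from 2 to 1 for algebraic `α` is its uniform version: a machine as in 2 computes all the
numbers `α y` (for `y = 1/b` the number `α / b`) in real time.

Sketch (overlap argument of Cook-Aanderaa and Paterson-Fischer-Meyer together with Liouville's
inequality).  Consider the times `t₁ ≤ t₂ ≤ t₃` at which `a`, `a + m`, `a + 2m` digits are read.  The part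
of the stacks written before `t₂` and read after `t₂` has to carry a positive fraction of the information
in the last `m / 2^v` digits read before `t₂`: otherwise two words differ only there and have the same
output digits after the position `a + m + m / 2^v`, and the quotient of the differences is a rational
approximation of `α` that is too good.  Hence for all but a fraction `b^(-c m)` of the words the overlap is
`≥ c m`.  A potential argument on the dyadic tree shows that overlaps `≥ c m` at all nodes of `L` levels
take time `≥ c' L N`.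
-/

namespace Pool.Agent.Results.MP_5bdb63_lc.OnlineMultiples

open Filter Asymptotics

/-- A finite deterministic multi-stack machine (Mathlib's TM2) with an input stack `inp`, whose symbols
encode base-`b` digits through `rd`, and an output stack `out`, whose symbols stand for integers
through `wr`. -/
structure Machine (b : ℕ) where
  K : Type
  [fK : Fintype K]
  [dK : DecidableEq K]
  Γ : K → Type
  [fΓ : ∀ k, Fintype (Γ k)]
  Λ : Type
  [fΛ : Fintype Λ]
  σ : Type
  [fσ : Fintype σ]
  prog : Λ → Turing.TM2.Stmt Γ Λ σ
  l₀ : Λ
  v₀ : σ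
  inp : K
  out : K
  ne : inp ≠ out
  rd : Fin b → Γ inp
  wr : Γ out → ℤ

attribute [instance] Machine.fK Machine.dK Machine.fΓ Machine.fΛ Machine.fσ

variable {b : ℕ}

/-- The configuration after `t` steps on the input word `w` (its first digit is on top of the stack `inp`,
all other stacks are empty at the beginning); `none` if the machine has halted before. -/
def Machine.config (M : Machine b) (w : List (Fin b)) (t : ℕ) :
    Option (Turing.TM2.Cfg M.Γ M.Λ M.σ) :=
  (fun o : Option (Turing.TM2.Cfg M.Γ M.Λ M.σ) => o.bind (Turing.TM2.step (M := M.prog)))^[t]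
    (some ⟨some M.l₀, M.v₀, Function.update (fun _ => []) M.inp (w.map M.rd)⟩)

/-- The number `0.l₀l₁l₂...` in base `b` with the integer digits `l`. -/
noncomputable def value (b : ℕ) (l : List ℤ) : ℝ :=
  ∑ i ∈ Finset.range l.length, (l.getD i 0 : ℝ) / (b : ℝ) ^ (i + 1)

/-- The machine multiplies the word `w` by `α` on-line, in time `T` with lookahead `D` and error constant
`E`: the input stack is only popped, the output stack is only pushed, and for all `n` with
`n + D n ≤ |w|` there is a time `t ≤ T n` at which at most `n + D n` digits have been read, at least `n`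
digits have been written and the first `n` of them determine `α` times the number with the digits `w` up
to `E / b^n`. -/
structure Machine.Multiplies (M : Machine b) (α E : ℝ) (T D : ℕ → ℕ) (w : List (Fin b)) : Prop where
  reads : ∀ t t' : ℕ, t ≤ t' → ∀ C C' : Turing.TM2.Cfg M.Γ M.Λ M.σ,
    M.config w t = some C → M.config w t' = some C' → C'.stk M.inp <:+ C.stk M.inp
  writes : ∀ t t' : ℕ, t ≤ t' → ∀ C C' : Turing.TM2.Cfg M.Γ M.Λ M.σ,
    M.config w t = some C → M.config w t' = some C' → C.stk M.out <:+ C'.stk M.out
  works : ∀ n, n + D n ≤ w.length → ∃ t ≤ T n, ∃ C : Turing.TM2.Cfg M.Γ M.Λ M.σ,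
    M.config w t = some C ∧
    w.length ≤ (C.stk M.inp).length + (n + D n) ∧ n ≤ (C.stk M.out).length ∧
    |α * value b (w.map fun a : Fin b => ((a : ℕ) : ℤ)) -
      value b (((C.stk M.out).reverse.take n).map M.wr)| ≤ E / (b : ℝ) ^ n

/-- The number of words of length `N` which the machine multiplies by `α`. -/
noncomputable def Machine.successes (M : Machine b) (α E : ℝ) (T D : ℕ → ℕ) (N : ℕ) : ℕ :=
  {w : Fin N → Fin b | M.Multiplies α E T D (List.ofFn w)}.ncard

theorem not_liouville {α : ℝ} (hα : IsAlgebraic ℚ α ∨ ¬ Liouville α) : ¬ Liouville α := by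
  rcases hα with h | h
  · intro hL
    exact hL.transcendental ((IsFractionRing.isAlgebraic_iff ℤ ℚ ℝ).2 h)
  · exact h

/-- **Main theorem.** -/
theorem result (b : ℕ) (hb : 2 ≤ b) (α : ℝ) (hα : IsAlgebraic ℚ α ∨ ¬ Liouville α) :
    List.TFAE [
      ∃ q : ℚ, (q : ℝ) = α,
      ∃ (M : Machine b) (E : ℝ), ∀ w : List (Fin b),
        M.Multiplies α E (fun n => n + 1) (fun _ => 0) w,
      ∃ (M : Machine b) (E : ℝ) (T D : ℕ → ℕ) (κ : ℝ), 0 < κ ∧ κ < 1 ∧ Monotone T ∧ Monotone D ∧
        (fun n => (D n : ℝ)) =o[atTop] (fun n => (n : ℝ)) ∧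
        (fun n => (T n : ℝ)) =o[atTop]
          (fun n => (n : ℝ) * Real.log ((n : ℝ) / ((D n : ℝ) + 1))) ∧
        ∃ᶠ N : ℕ in atTop, (b : ℝ) ^ ((N : ℝ) - (N : ℝ) ^ (1 - κ)) ≤ M.successes α E T D N] := by
  classical
  have hL := not_liouville hα
  have hb1 : (1 : ℝ) < b := by exact_mod_cast (by omega : 1 < b)
  have hall : ∀ (M : Machine b) (E : ℝ) (T D : ℕ → ℕ), (∀ w, M.Multiplies α E T D w) →
      ∀ N, M.successes α E T D N = b ^ N := by
    intro M E T D h N
    unfold Machine.successes
    rw [show {w : Fin N → Fin b | M.Multiplies α E T D (List.ofFn w)} = Set.univ from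
      Set.eq_univ_of_forall fun w => h _, Set.ncard_univ, Nat.card_eq_fintype_card,
      Fintype.card_fun, Fintype.card_fin, Fintype.card_fin]
  have raw : ∀ {M : Machine b} {E : ℝ} {T D : ℕ → ℕ} {w : List (Fin b)}, M.Multiplies α E T D w →
      Pool.Agent.H77.OL.RawMult M.prog M.l₀ M.v₀ M.inp M.out M.rd M.wr α E T D w :=
    fun h => ⟨h.reads, h.writes, h.works⟩
  have hW : ∀ (M : Machine b) (E : ℝ) (T D : ℕ → ℕ) (N : ℕ), ∃ W : Finset (Fin N → Fin b),
      (∀ w ∈ W, Pool.Agent.H77.OL.RawMult M.prog M.l₀ M.v₀ M.inp M.out M.rd M.wr α E T D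
        (List.ofFn w)) ∧ W.card = M.successes α E T D N := by
    intro M E T D N
    refine ⟨(Set.toFinite {w : Fin N → Fin b | M.Multiplies α E T D (List.ofFn w)}).toFinset,
      fun w hw => raw (by simpa using hw), ?_⟩
    unfold Machine.successes
    rw [Set.ncard_eq_toFinset_card]
  tfae_have 1 → 2 := by
    rintro ⟨q, rfl⟩
    have h := Pool.Agent.H77.OL.mult_rat (b := b) (q := q.den) (by omega) q.den_pos q.num
    refine ⟨{ K := Bool, Γ := fun _ => Fin q.den × Fin b, Λ := Unit, σ := Fin q.den × Fin b
              prog := Pool.Agent.H77.OL.progP (by omega) q.num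
              l₀ := (), v₀ := (⟨0, q.den_pos⟩, ⟨0, by omega⟩), inp := true, out := false
              ne := by decide
              rd := fun y => (⟨0, q.den_pos⟩, y)
              wr := Pool.Agent.H77.OL.wrP q.num }, |(q.num : ℝ) / q.den| + 1, fun w => ?_⟩
    have hq : (q : ℝ) = (q.num : ℝ) / q.den := Rat.cast_def q
    rw [hq]
    exact ⟨(h w).reads, (h w).writes, (h w).works⟩
  tfae_have 2 → 3 := by
    rintro ⟨M, E, h⟩
    refine ⟨M, E, fun n => n + 1, fun _ => 0, 1 / 2, by norm_num, by norm_num,
      fun m n h => Nat.succ_le_succ h, fun _ _ _ => le_rfl, by simp, ?_, ?_⟩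
    · have h1 : (fun n : ℕ => ((n + 1 : ℕ) : ℝ)) =O[atTop] fun n : ℕ => (n : ℝ) := by
        apply IsBigO.of_bound 2
        filter_upwards [eventually_ge_atTop 1] with n hn
        rw [Real.norm_of_nonneg (by positivity), Real.norm_of_nonneg (by positivity)]
        have : (1 : ℝ) ≤ n := by exact_mod_cast hn
        push_cast; linarith
      have h2 : (fun _ : ℕ => (1 : ℝ)) =o[atTop] fun n : ℕ => Real.log n := by
        rw [isLittleO_const_left]
        right
        exact tendsto_norm_atTop_atTop.comp (Real.tendsto_log_atTop.comp tendsto_natCast_atTop_atTop)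
      have h3 := h1.mul_isLittleO h2
      simpa using h3
    · apply Frequently.of_forall
      intro N
      rw [hall M E _ _ h N, Nat.cast_pow, ← Real.rpow_natCast]
      apply Real.rpow_le_rpow_of_exponent_le hb1.le
      have : (0 : ℝ) ≤ (N : ℝ) ^ ((1 : ℝ) - 1 / 2) := by positivity
      linarith
  tfae_have 3 → 1 := by
    rintro ⟨M, E, T, D, κ, h0, h1, hTm, hDm, hD, hT, h⟩
    by_contra hirr
    have hirr' : Irrational α := by
      rintro ⟨q, hq⟩
      exact hirr ⟨q, hq⟩
    have hN := Pool.Agent.H77.OL.trade_rare hb hL hirr' M.prog M.l₀ M.v₀ M.ne.symm M.rd M.wr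
      E T D hTm hDm h0 h1 hD hT
    obtain ⟨N, h1, h2⟩ := (h.and_eventually hN).exists
    obtain ⟨W, hW1, hW2⟩ := hW M E T D N
    have h3 := h2 W hW1
    rw [hW2] at h3
    linarith
  tfae_finish

/-- Corollary: an algebraic irrational number has no on-line multiplier that works in real time with
lookahead `o(n)` on all words. -/
theorem not_realTime (b : ℕ) (hb : 2 ≤ b) (α : ℝ) (hα : IsAlgebraic ℚ α) (hirr : Irrational α)
    (M : Machine b) (E : ℝ) (c : ℕ) (D : ℕ → ℕ) (hDm : Monotone D)
    (hD : (fun n => (D n : ℝ)) =o[atTop] (fun n => (n : ℝ))) :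
    ¬ ∀ w, M.Multiplies α E (fun n => c * (n + 1)) D w := by
  intro h
  have hb1 : (1 : ℝ) < b := by exact_mod_cast (by omega : 1 < b)
  have h31 := (result b hb α (Or.inl hα)).out 2 0
  refine hirr (h31.1 ⟨M, E, fun n => c * (n + 1), D, 1 / 2, by norm_num, by norm_num,
      fun m n h => Nat.mul_le_mul_left _ (Nat.succ_le_succ h), hDm, hD, ?_, ?_⟩)
  · have h1 : (fun n : ℕ => ((c * (n + 1) : ℕ) : ℝ)) =O[atTop] fun n : ℕ => (n : ℝ) := by
      apply IsBigO.of_bound (2 * c)
      filter_upwards [eventually_ge_atTop 1] with n hn
      rw [Real.norm_of_nonneg (by positivity), Real.norm_of_nonneg (by positivity)]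
      have : (1 : ℝ) ≤ n := by exact_mod_cast hn
      have hc : (0 : ℝ) ≤ c := by positivity
      push_cast; nlinarith
    have h2 : (fun _ : ℕ => (1 : ℝ)) =o[atTop]
        fun n : ℕ => Real.log ((n : ℝ) / ((D n : ℝ) + 1)) := by
      rw [isLittleO_const_left]
      right
      exact tendsto_norm_atTop_atTop.comp
        (Real.tendsto_log_atTop.comp (Pool.Agent.H77.OL.tendsto_ratio hD))
    have h3 := h1.mul_isLittleO h2
    simpa only [mul_one] using h3
  · apply Frequently.of_forall
    intro N
    unfold Machine.successes
    rw [show {w : Fin N → Fin b | M.Multiplies α E (fun n => c * (n + 1)) D (List.ofFn w)} = Set.univ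
      from Set.eq_univ_of_forall fun w => h _, Set.ncard_univ, Nat.card_eq_fintype_card,
      Fintype.card_fun, Fintype.card_fin, Fintype.card_fin, Nat.cast_pow, ← Real.rpow_natCast]
    apply Real.rpow_le_rpow_of_exponent_le hb1.le
    have : (0 : ℝ) ≤ (N : ℝ) ^ ((1 : ℝ) - 1 / 2) := by positivity
    linarith

end Pool.Agent.Results.MP_5bdb63_lc.OnlineMultiples
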