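import Pool.Agent.H43.RRL.Main
import Pool.Agent.H43.RRL.Tr
import Pool.Agent.H77.OF.Sum3

/-!
# The Hartmanis-Stearns conjecture relative to a random real number

The machines are the multi-stack machines of the frozen statement of the problem, with one more stack that
holds the base-`b` digits of a number `y` in `[0, 1)` and is only popped.  The digits written on the
push-only output stack may be arbitrary integers (redundant digits).  The machine prints `z` on-line from
`y` with lookahead `D`, in time `T`: it prints `n` digits, which determine `z` up to `E / b^n`, before it has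
read more than `n + D n` digits of `y`, in at most `T n` steps.

Theorem.  For almost every `y` in `[0, 1]`, with one exceptional null set for all machines and all `z`: if
`z` is algebraic over `ℚ (y)` and some machine prints `z` on-line from `y` in time `T` with lookahead `D`,
where `T` and `D` are nondecreasing, `D n = o(n)` and `T n = o(n log (n / (D n + 1)))` (for example in real
time with any lookahead `o(n)`), then `z = α y + β` with a rational number `α` and an algebraic number `β`.

So none of the numbers `√2 y`, `y²`, `√y`, `1 / (1 + y)`, `y² + √2`, ... can be printed in real time from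
the digits of a random number `y`.  Conversely, for every `y` the numbers `α y + β` with a rational `α` and a
real-time computable `β` are printed in real time with lookahead `0`.  What remains of the conjecture
relative to a random `y` are the algebraic numbers `β` themselves, i.e. the absolute case.

Sketch.  A number `z` algebraic over `ℚ (y)` is the value at `y` of a branch `f` of an algebraic function.
There are countably many machines and branches; if the claim fails, then for one machine and one branch the
numbers `y` for which it works have a density point `y₀`, at which the slope `f' y₀` is irrational, and it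
is not a Liouville number, since almost no `y` is algebraic over the field of a Liouville number.  Near
`y₀` the machine has to do what a multiplier by `f' y₀` does, on at least half of all words with a given
long beginning.  By the overlap argument (Cook-Aanderaa, Paterson-Fischer-Meyer) and the Diophantine
property of `f' y₀` this takes time `Ω(n log (n / D))` on all but a tiny part of these words.
-/

namespace Pool.Agent.Results.MP_5bdb63_lc.RandomInput

open Filter Asymptotics Set MeasureTheory

/-- The sequence `a` is generated in real time: there are a finite deterministic multi-stack machine `M`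
(`K` stacks with finite alphabets `Γ`, finite label set `Λ`, finite internal memory `σ`), one of whose
stacks, `out`, never loses a symbol, a coding `enc` of its symbols, and a constant `c` such that for every
`n`, after `c * (n + 1)` steps the first (bottom) `n` symbols of `out` are `a 0, ..., a (n-1)`. -/
def RealTimeGenerated {α : Type} (a : ℕ → α) : Prop :=
  ∃ (K : Type) (_ : Fintype K) (_ : DecidableEq K) (Γ : K → Type)
    (_ : ∀ k, Fintype (Γ k)) (Λ : Type) (_ : Fintype Λ) (σ : Type) (_ : Fintype σ)
    (M : Λ → Turing.TM2.Stmt Γ Λ σ) (l₀ : Λ) (v₀ : σ) (out : K)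
    (enc : Γ out → α) (c : ℕ),
    (∀ t t' : ℕ, t ≤ t' → ∀ C C' : Turing.TM2.Cfg Γ Λ σ,
      (fun o : Option (Turing.TM2.Cfg Γ Λ σ) => o.bind (Turing.TM2.step (M := M)))^[t]
          (some ⟨some l₀, v₀, fun _ => []⟩) = some C →
      (fun o : Option (Turing.TM2.Cfg Γ Λ σ) => o.bind (Turing.TM2.step (M := M)))^[t']
          (some ⟨some l₀, v₀, fun _ => []⟩) = some C' →
      C.stk out <:+ C'.stk out) ∧
    ∀ n : ℕ, ∃ C : Turing.TM2.Cfg Γ Λ σ,
      (fun o : Option (Turing.TM2.Cfg Γ Λ σ) => o.bind (Turing.TM2.step (M := M)))^[c * (n + 1)]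
          (some ⟨some l₀, v₀, fun _ => []⟩) = some C ∧
      ∀ i < n, Option.map enc ((C.stk out).reverse[i]?) = some (a i)

/-- `x` is real-time computable in base `b`: its sequence of base-`b` digits (of the fractional part) is
generated in real time. -/
def RealTimeComputable (b : ℕ) (x : ℝ) : Prop :=
  RealTimeGenerated (fun i => Int.toNat (⌊x * (b : ℝ) ^ (i + 1)⌋ % (b : ℤ)))

/-- A finite deterministic multi-stack machine (Mathlib's TM2) with an input stack `inp`, whose symbols
encode base-`b` digits through `rd`, and an output stack `out`, whose symbols stand for integers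
through `wr`. -/
structure Machine (b : ℕ) where
  K : Type
  [fK : Fintype K]
  [dK : DecidableEq K]
  Γ : K → Type
  [fΓ : ∀ k, Fintype (Γ k)]
  Λ : Type
  [fΛ : Fintype Λ]
  σ : Type
  [fσ : Fintype σ]
  prog : Λ → Turing.TM2.Stmt Γ Λ σ
  l₀ : Λ
  v₀ : σ
  inp : K
  out : K
  ne : inp ≠ out
  rd : Fin b → Γ inp
  wr : Γ out → ℤ

attribute [instance] Machine.fK Machine.dK Machine.fΓ Machine.fΛ Machine.fσ

variable {b : ℕ}

/-- The configuration after `t` steps on the input word `w` (its first digit is on top of the stack `inp`,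
all other stacks are empty at the beginning); `none` if the machine has halted before. -/
def Machine.config (M : Machine b) (w : List (Fin b)) (t : ℕ) :
    Option (Turing.TM2.Cfg M.Γ M.Λ M.σ) :=
  (fun o : Option (Turing.TM2.Cfg M.Γ M.Λ M.σ) => o.bind (Turing.TM2.step (M := M.prog)))^[t]
    (some ⟨some M.l₀, M.v₀, Function.update (fun _ => []) M.inp (w.map M.rd)⟩)

/-- The number `0.l₀l₁l₂...` in base `b` with the integer digits `l`. -/
noncomputable def value (b : ℕ) (l : List ℤ) : ℝ :=
  ∑ i ∈ Finset.range l.length, (l.getD i 0 : ℝ) / (b : ℝ) ^ (i + 1)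

/-- The word `w` consists of the first digits of `y` in base `b`. -/
def IsBeginning (b : ℕ) (y : ℝ) (w : List (Fin b)) : Prop :=
  ∀ i (h : i < w.length), ((w[i] : ℕ) : ℤ) = ⌊y * (b : ℝ) ^ (i + 1)⌋ % (b : ℤ)

/-- The machine prints `z` on-line from `y`, in time `T` with lookahead `D` and error constant `E`: on
every beginning `w` of the sequence of digits of `y` the input stack is only popped, the output stack is
only pushed, and for all `n` with `n + D n ≤ |w|` there is a time `t ≤ T n` at which at most `n + D n`
digits have been read, at least `n` digits have been written and the first `n` of them determine `z` up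
to `E / b^n`. -/
structure Machine.Prints (M : Machine b) (y z E : ℝ) (T D : ℕ → ℕ) : Prop where
  reads : ∀ w, IsBeginning b y w → ∀ t t' : ℕ, t ≤ t' → ∀ C C' : Turing.TM2.Cfg M.Γ M.Λ M.σ,
    M.config w t = some C → M.config w t' = some C' → C'.stk M.inp <:+ C.stk M.inp
  writes : ∀ w, IsBeginning b y w → ∀ t t' : ℕ, t ≤ t' → ∀ C C' : Turing.TM2.Cfg M.Γ M.Λ M.σ,
    M.config w t = some C → M.config w t' = some C' → C.stk M.out <:+ C'.stk M.out
  works : ∀ w, IsBeginning b y w → ∀ n, n + D n ≤ w.length →
    ∃ t ≤ T n, ∃ C : Turing.TM2.Cfg M.Γ M.Λ M.σ, M.config w t = some C ∧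
      w.length ≤ (C.stk M.inp).length + (n + D n) ∧ n ≤ (C.stk M.out).length ∧
      |z - value b (((C.stk M.out).reverse.take n).map M.wr)| ≤ E / (b : ℝ) ^ n

theorem isBeginning_wd (hb : 2 ≤ b) (N : ℕ) (y : ℝ) :
    IsBeginning b y (List.ofFn (Pool.Agent.H43.RRL.wd hb N y)) := by
  intro i h
  rw [List.getElem_ofFn]
  show ((Pool.Agent.H77.RT.dig b y i : ℕ) : ℤ) = _
  unfold Pool.Agent.H77.RT.dig
  exact Int.toNat_of_nonneg (Int.emod_nonneg _ (by omega))

theorem eq_wd (hb : 2 ≤ b) {y : ℝ} {w : List (Fin b)} (h : IsBeginning b y w) :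
    w = List.ofFn (Pool.Agent.H43.RRL.wd hb w.length y) := by
  apply List.ext_getElem
  · simp
  · intro i h1 h2
    have e1 := h i h1
    have e2 := isBeginning_wd hb w.length y i h2
    rw [← e2] at e1
    apply Fin.ext
    exact_mod_cast e1

theorem raw {M : Machine b} {y z E : ℝ} {T D : ℕ → ℕ} (h : M.Prints y z E T D) {w : List (Fin b)}
    (hw : IsBeginning b y w) :
    Pool.Agent.H77.OF.RawComp M.prog M.l₀ M.v₀ M.inp M.out M.rd M.wr (fun _ => z) E T D w :=
  ⟨h.reads w hw, h.writes w hw, h.works w hw⟩

/-- **Main theorem.** -/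
theorem result (b : ℕ) (hb : 2 ≤ b) :
    (∀ᵐ y : ℝ ∂(volume.restrict (Icc 0 1)), ∀ z : ℝ,
      IsAlgebraic (IntermediateField.adjoin ℚ {y}) z →
      (∃ (M : Machine b) (E : ℝ) (T D : ℕ → ℕ), Monotone T ∧ Monotone D ∧
        (fun n => (D n : ℝ)) =o[atTop] (fun n => (n : ℝ)) ∧
        (fun n => (T n : ℝ)) =o[atTop]
          (fun n => (n : ℝ) * Real.log ((n : ℝ) / ((D n : ℝ) + 1))) ∧
        M.Prints y z E T D) →
      ∃ (α : ℚ) (β : ℝ), IsAlgebraic ℚ β ∧ z = α * y + β) ∧
    (∀ y : ℝ, 0 ≤ y → y < 1 → ∀ (α : ℚ) (β : ℝ), RealTimeComputable b β →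
      ∃ (M : Machine b) (E : ℝ) (c : ℕ),
        M.Prints y (α * y + β) E (fun n => c * (n + 1)) (fun _ => 0)) := by
  classical
  refine ⟨?_, ?_⟩
  · rw [ae_restrict_iff' measurableSet_Icc]
    have h1 : ∀ᵐ y : ℝ, y ≠ 1 := by
      have := (Set.countable_singleton (1 : ℝ)).ae_notMem (volume : Measure ℝ)
      filter_upwards [this] with y hy h
      exact hy h
    filter_upwards [Pool.Agent.H43.RRL.ae_main hb, h1] with y hy hy1 hI z hz
    rintro ⟨M, E, T, D, hTm, hDm, hD, hT, hP⟩
    obtain ⟨M', hM'⟩ := Pool.Agent.H43.RRL.exists_mach M.prog M.l₀ M.v₀ M.ne M.rd M.wr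
    exact hy hI.1 (lt_of_le_of_ne hI.2 hy1) z hz M' E T D hTm hDm hD hT
      (fun N => hM' _ _ _ _ _ (raw hP (isBeginning_wd hb N y)))
  · intro y h0 h1 α β hβ
    have hg : Pool.Agent.H77.RT.Gen (Pool.Agent.H77.RT.dig b β) :=
      Pool.Agent.H77.RT.RealTimeGenerated.gen hβ
    obtain ⟨K, _, _, Γ, _, Λ, _, σ, _, M, l₀, v₀, inp, out, ne, rd, wr, E, c, hM⟩ :=
      Pool.Agent.H77.OF.exists_sum hb α.den_pos α.num β hg
    have hα : (α : ℝ) = (α.num : ℝ) / α.den := Rat.cast_def α
    have hM' : ∀ w : List (Fin b), IsBeginning b y w → Pool.Agent.H77.OF.RawComp M l₀ v₀ inp out rd wr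
        (fun _ => (α : ℝ) * y + β) (E + |(α : ℝ)|) (fun n => c * (n + 1)) (fun _ => 0) w := by
      intro w hw
      have h2 := hM w
      rw [eq_wd hb hw] at h2 ⊢
      apply Pool.Agent.H43.RRL.raw_fun hb h2
      have h3 := Pool.Agent.H43.RRL.val_wd_le hb h0 h1 w.length
      have h4 := Pool.Agent.H43.RRL.lt_val_wd hb h0 h1 w.length
      rw [← hα]
      have e1 : (α : ℝ) * y + β - (α * Pool.Agent.H77.OL.val b
          (Pool.Agent.H43.RRL.wd hb w.length y) + β) =
          α * (y - Pool.Agent.H77.OL.val b (Pool.Agent.H43.RRL.wd hb w.length y)) := by ring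
      rw [e1, abs_mul, abs_of_nonneg (by linarith : 0 ≤ y - Pool.Agent.H77.OL.val b
        (Pool.Agent.H43.RRL.wd hb w.length y))]
      calc |(α : ℝ)| * (y - Pool.Agent.H77.OL.val b (Pool.Agent.H43.RRL.wd hb w.length y))
          ≤ |(α : ℝ)| * (1 / (b : ℝ) ^ w.length) :=
            mul_le_mul_of_nonneg_left (by linarith) (abs_nonneg _)
        _ = |(α : ℝ)| / (b : ℝ) ^ w.length := by ring
    exact ⟨{ K := K, Γ := Γ, Λ := Λ, σ := σ, prog := M, l₀ := l₀, v₀ := v₀, inp := inp, out := out
             ne := ne, rd := rd, wr := wr }, E + |(α : ℝ)|, c,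
      ⟨fun w hw => (hM' w hw).reads, fun w hw => (hM' w hw).writes, fun w hw => (hM' w hw).works⟩⟩

end Pool.Agent.Results.MP_5bdb63_lc.RandomInput
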