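import Pool.Agent.H77.RT.Base

/-!
# Real-time computable algebraic numbers: linear combinations and redundant digits

The machine model is the one of the frozen statement of the problem: a finite deterministic
multi-stack machine with a push-only output stack whose first `n` output symbols are present after
`c * (n + 1)` steps.

Theorem.  Let `b ≥ 2` and let `z` be an algebraic number which is a `ℚ`-linear combination of numbers
`x = ∑ e_i / b'^(i+1)`, where each `(e_i)` is an integer sequence generated in real time (negative and
redundant digits are allowed) and each base `b'` is multiplicatively dependent on `b`.  Then the standard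
base-`b` digits of `z` are generated in real time.

Sketch.  The product of the machines produces an integer sequence `A_n` with
`A_(n+1) = b A_n + e_n` and `|q z b^n - A_n|` bounded.  A finite transducer divides by `q b^δ` and turns
this into digits `f_n` in `{-1, 0, ..., b-1}`.  A transducer with one unary stack stores the current run
of zeros after the last nonzero digit and resolves borrows.  By Liouville's inequality a run that
starts after `m` digits has length at most `(d - 1) m + C`, so the digits come out in real time.
-/

namespace Pool.Agent.Results.MP_5bdb63_lc.RealTimeSpan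

/-- The sequence `a` is generated in real time: there are a finite deterministic multi-stack machine `M`
(`K` stacks with finite alphabets `Γ`, finite label set `Λ`, finite internal memory `σ`), one of whose
stacks, `out`, never loses a symbol, a coding `enc` of its symbols, and a constant `c` such that for every
`n`, after `c * (n + 1)` steps the first (bottom) `n` symbols of `out` are `a 0, ..., a (n-1)`. -/
def RealTimeGenerated {α : Type} (a : ℕ → α) : Prop :=
  ∃ (K : Type) (_ : Fintype K) (_ : DecidableEq K) (Γ : K → Type)
    (_ : ∀ k, Fintype (Γ k)) (Λ : Type) (_ : Fintype Λ) (σ : Type) (_ : Fintype σ)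
    (M : Λ → Turing.TM2.Stmt Γ Λ σ) (l₀ : Λ) (v₀ : σ) (out : K)
    (enc : Γ out → α) (c : ℕ),
    (∀ t t' : ℕ, t ≤ t' → ∀ C C' : Turing.TM2.Cfg Γ Λ σ,
      (fun o : Option (Turing.TM2.Cfg Γ Λ σ) => o.bind (Turing.TM2.step (M := M)))^[t]
          (some ⟨some l₀, v₀, fun _ => []⟩) = some C →
      (fun o : Option (Turing.TM2.Cfg Γ Λ σ) => o.bind (Turing.TM2.step (M := M)))^[t']
          (some ⟨some l₀, v₀, fun _ => []⟩) = some C' →
      C.stk out <:+ C'.stk out) ∧
    ∀ n : ℕ, ∃ C : Turing.TM2.Cfg Γ Λ σ,
      (fun o : Option (Turing.TM2.Cfg Γ Λ σ) => o.bind (Turing.TM2.step (M := M)))^[c * (n + 1)]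
          (some ⟨some l₀, v₀, fun _ => []⟩) = some C ∧
      ∀ i < n, Option.map enc ((C.stk out).reverse[i]?) = some (a i)

/-- `x` is real-time computable in base `b`: its sequence of base-`b` digits (of the fractional part) is
generated in real time. -/
def RealTimeComputable (b : ℕ) (x : ℝ) : Prop :=
  RealTimeGenerated (fun i => Int.toNat (⌊x * (b : ℝ) ^ (i + 1)⌋ % (b : ℤ)))

/-- **Main theorem.**  Let `z` be an algebraic number.  If `z` is a rational linear combination of numbers
each of which, in some base multiplicatively dependent on `b`, is real-time computable or has a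
real-time generated expansion with integer digits (possibly negative or redundant), then `z` is real-time
computable in base `b`. -/
theorem result (b : ℕ) (hb : 2 ≤ b) (z : ℝ) (halg : IsAlgebraic ℚ z)
    (hz : z ∈ Submodule.span ℚ {x : ℝ | ∃ b' : ℕ, 2 ≤ b' ∧
      (∃ k l : ℕ, 0 < k ∧ 0 < l ∧ b ^ k = b' ^ l) ∧
      (RealTimeComputable b' x ∨
        ∃ e : ℕ → ℤ, RealTimeGenerated e ∧
          HasSum (fun i => (e i : ℝ) / (b' : ℝ) ^ (i + 1)) x)}) :
    RealTimeComputable b z :=
  Pool.Agent.H77.RT.main_span hb halg hz

/-- Corollary: the algebraic numbers that are real-time computable in base `b` form a rational vector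
space. -/
theorem exists_submodule (b : ℕ) (hb : 2 ≤ b) :
    ∃ W : Submodule ℚ ℝ, ∀ x, x ∈ W ↔ IsAlgebraic ℚ x ∧ RealTimeComputable b x := by
  refine ⟨Submodule.span ℚ {x : ℝ | IsAlgebraic ℚ x ∧ RealTimeComputable b x}, fun x => ?_⟩
  constructor
  · intro hx
    have halg : IsAlgebraic ℚ x := by
      induction hx using Submodule.span_induction with
      | mem x h => exact h.1
      | zero => exact isAlgebraic_zero
      | add x y _ _ hx hy => exact hx.add hy
      | smul r x _ hx => exact hx.smul r
    refine ⟨halg, result b hb x halg (Submodule.span_mono ?_ hx)⟩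
    rintro y ⟨_, hy⟩
    exact ⟨b, hb, ⟨1, 1, one_pos, one_pos, rfl⟩, Or.inl hy⟩
  · intro hx
    exact Submodule.subset_span hx

/-- Corollary: in a real quadratic field either every element or only the rational ones are real-time
computable in base `b`. -/
theorem quadratic (b : ℕ) (hb : 2 ≤ b) (D : ℕ) (r s r' s' : ℚ) (hs : s ≠ 0)
    (h : RealTimeComputable b (r + s * Real.sqrt D)) :
    RealTimeComputable b (r' + s' * Real.sqrt D) := by
  obtain ⟨W, hW⟩ := exists_submodule b hb
  have hsqrt : IsAlgebraic ℚ (Real.sqrt D) := by
    refine IsAlgebraic.of_pow (n := 2) two_pos ?_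
    rw [Real.sq_sqrt (by positivity)]
    exact isAlgebraic_natCast _
  have hrat : ∀ q : ℚ, IsAlgebraic ℚ (q : ℝ) := fun q => isAlgebraic_algebraMap (A := ℝ) q
  have hq : ∀ q : ℚ, (q : ℝ) ∈ W := fun q => (hW _).2
    ⟨hrat q, Pool.Agent.H77.RT.realTime_of_gen hb (Pool.Agent.H77.RT.gen_dig_rat hb q)⟩
  have hz : (r : ℝ) + s * Real.sqrt D ∈ W := (hW _).2 ⟨(hrat r).add ((hrat s).mul hsqrt), h⟩
  have hs' : (s : ℝ) ≠ 0 := by exact_mod_cast hs
  have h1 : Real.sqrt D ∈ W := by
    have h2 : Real.sqrt D = (s⁻¹ : ℚ) • (((r : ℝ) + s * Real.sqrt D) - (r : ℝ)) := by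
      rw [Rat.smul_def]; push_cast; field_simp; ring
    rw [h2]
    exact W.smul_mem _ (W.sub_mem hz (hq r))
  have h3 : (r' : ℝ) + s' * Real.sqrt D ∈ W := by
    have h4 : (s' : ℝ) * Real.sqrt D = (s' : ℚ) • Real.sqrt D := by rw [Rat.smul_def]
    rw [h4]
    exact W.add_mem (hq r') (W.smul_mem _ h1)
  exact ((hW _).1 h3).2

end Pool.Agent.Results.MP_5bdb63_lc.RealTimeSpan
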